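import Pool.Agent.H4.Mom
import Pool.Agent.H25.CBase

set_option autoImplicit false

namespace Pool.Agent.Results.MP_f29e3e_lc.Strong

open Finset Pool.Agent.H11.PT Pool.Agent.H4.Mom Pool.Agent.H25.CB

section
variable {l : ℕ} (a : Fin l → ℕ) (b : ℕ)

/-- the coefficients `a₁, …, a_l` (indices `some i`) and `-b` (index `none`) -/
def cf : Option (Fin l) → ℤ
  | none => -(b : ℤ)
  | some i => a i

/-- trivial solution: the classes are the fibres of `cls` -/
def Trivial (z : Option (Fin l) → ℤ) : Prop :=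
  ∃ cls : Option (Fin l) → ℕ, (∀ i j, cls i = cls j → z i = z j) ∧
    ∀ P, ∑ i with cls i = P, cf a b i = 0

/-- every solution with entries in `S` is trivial -/
def Free (S : Finset ℤ) : Prop :=
  ∀ z : Option (Fin l) → ℤ, (∀ i, z i ∈ S) → ∑ i, cf a b i * z i = 0 → Trivial a b z

/-- a list of integers (sign, binary digits) and a binary number `k` -/
abbrev Inst := List (Bool × List Bool) × List Bool

/-- the set `A` of an instance -/
def setA (y : Inst) : Finset ℤ :=
  (y.1.map fun p => bif p.1 then -(bin p.2 : ℤ) else (bin p.2 : ℤ)).toFinset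

/-- `A` has a solution-free subset with at least `k` elements -/
def LFS (y : Inst) : Prop := ∃ S ⊆ setA y, bin y.2 ≤ S.card ∧ Free a b S

def gn (n : ℕ) (e : ℕ × ℕ) (i : ℕ) : ℕ :=
  if i = 0 then e.1 else if i = 1 then e.2 else n + Nat.pair (Nat.pair e.1 e.2) i

def co : Option (Fin l) → Fin l → ℕ
  | none, i => a i
  | some j, i => if i = j then b else 0

def val (n : ℕ) (w : ℕ → ℤ) (e : ℕ × ℕ) (o : Option (Fin l)) : ℤ := ∑ i, co a b o i * w (gn n e i)

theorem val_some (n : ℕ) (w : ℕ → ℤ) (e : ℕ × ℕ) (j : Fin l) :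
    val a b n w e (some j) = b * w (gn n e j) := by simp [val, co]

theorem val_none (n : ℕ) (w : ℕ → ℤ) (e : ℕ × ℕ) :
    val a b n w e none = ∑ i, a i * w (gn n e i) := by simp [val, co]

def cK : ℕ := b + ∑ i, a i
def cN (l n : ℕ) : ℕ := n + (n ^ 2 + l) ^ 2
def cM (n : ℕ) : ℕ := (l + 1) * l * (cK a b * cK a b * cN l n ^ ((l + 1) * l)) + 1
def ph (n j : ℕ) : ℕ := mom ((l + 1) * l) (cM a b n) j
def vl (n : ℕ) (e : ℕ × ℕ) (o : Option (Fin l)) : ℕ := ∑ i, co a b o i * ph a b n (gn n e i)

theorem vl_cast (n : ℕ) (e : ℕ × ℕ) (o : Option (Fin l)) :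
    (vl a b n e o : ℤ) = val a b n (fun j => ph a b n j) e o := by simp [vl, val]

theorem le_cK (i : Fin l) : a i ≤ cK a b :=
  (single_le_sum (f := a) (by simp) (mem_univ i)).trans (Nat.le_add_left _ _)

theorem co_le (o : Option (Fin l)) (i : Fin l) : co a b o i ≤ cK a b := by
  have := le_cK a b i
  cases o <;> simp only [co]
  · exact this
  · split_ifs <;> simp [cK]

theorem gn_lt {n : ℕ} {e : ℕ × ℕ} (h1 : e.1 < n) (h2 : e.2 < n) (i : Fin l) : gn n e i < cN l n := by
  have p1 : Nat.pair e.1 e.2 < n ^ 2 := (Nat.pair_lt_max_add_one_sq _ _).trans_le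
    (Nat.pow_le_pow_left (by omega) _)
  have p2 : Nat.pair (Nat.pair e.1 e.2) i < (n ^ 2 + l) ^ 2 :=
    (Nat.pair_lt_max_add_one_sq _ _).trans_le (Nat.pow_le_pow_left (by omega) _)
  unfold gn cN; split_ifs <;> omega

theorem rel {U : Type} [Fintype U] {n : ℕ} (hU : Fintype.card U ≤ l + 1) (mu : U → ℤ)
    (hm : ∀ u, |mu u| ≤ cK a b) (e : U → ℕ × ℕ) (o : U → Option (Fin l))
    (he : ∀ u, (e u).1 < n ∧ (e u).2 < n) (h : ∑ u, mu u * vl a b n (e u) (o u) = 0) (w : ℕ → ℤ) :
    ∑ u, mu u * val a b n w (e u) (o u) = 0 := by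
  have := indep (T := U × Fin l) (H := (l + 1) * l) (C := cK a b * cK a b) (N := cN l n)
    (M := cM a b n) (fun t => mu t.1 * co a b (o t.1) t.2) (fun t => gn n (e t.1) t.2)
    (by simpa using Nat.mul_le_mul_right _ hU)
    (fun t => by
      rw [abs_mul, Nat.cast_mul]
      exact mul_le_mul (hm _) (by simpa using co_le a b _ _) (abs_nonneg _) (by positivity))
    (fun t => gn_lt (he _).1 (he _).2 _) (Nat.lt_succ_self _)
    (by simpa [vl, ph, Fintype.sum_prod_type, mul_sum, mul_assoc] using h) w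
  simpa [val, Fintype.sum_prod_type, mul_sum, mul_assoc] using this

theorem same (hl : 2 ≤ l) (hb : 0 < b) {n : ℕ} {e e' : ℕ × ℕ} {o o' : Option (Fin l)}
    (h1 : e.1 < n ∧ e.2 < n) (h2 : e'.1 < n ∧ e'.2 < n) (h : vl a b n e o = vl a b n e' o')
    (w : ℕ → ℤ) : val a b n w e o = val a b n w e' o' := by
  have := rel a b (U := Bool) (n := n) (by simp; omega) (fun u => bif u then 1 else -1)
    (fun u => by
      have : (1 : ℤ) ≤ cK a b := by exact_mod_cast hb.trans_le (Nat.le_add_right _ _)
      cases u <;> simpa) (fun u => bif u then e else e')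
    (fun u => bif u then o else o') (fun u => by cases u <;> simpa) (by simp [h]) w
  simp at this
  linarith

variable {a b}

theorem pos (hl : 2 ≤ l) (ha : ∀ i, 0 < a i) {n : ℕ} {w : ℕ → ℤ} (hw : ∀ j, 0 ≤ w j) {e : ℕ × ℕ}
    (h : w e.1 = 1 ∨ w e.2 = 1) : 0 < val a b n w e none := by
  rw [val_none]
  refine sum_pos' (fun i _ => mul_nonneg (by positivity) (hw _)) ?_
  rcases h with h | h
  · exact ⟨⟨0, by omega⟩, mem_univ _, by simpa [gn, h] using ha _⟩
  · exact ⟨⟨1, by omega⟩, mem_univ _, by simpa [gn, h] using ha _⟩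

theorem nonneg {n : ℕ} {w : ℕ → ℤ} (hw : ∀ j, 0 ≤ w j) (e : ℕ × ℕ) (o : Option (Fin l)) :
    0 ≤ val a b n w e o := sum_nonneg fun _ _ => mul_nonneg (by positivity) (hw _)

/-- indicator of the vertices outside an edge -/
def out (n : ℕ) (e : ℕ × ℕ) (j : ℕ) : ℤ := if j < n ∧ j ≠ e.1 ∧ j ≠ e.2 then 1 else 0

theorem out_nn (n : ℕ) (e : ℕ × ℕ) (j : ℕ) : 0 ≤ out n e j := by unfold out; split_ifs <;> simp

theorem out_val (n : ℕ) (e : ℕ × ℕ) : val a b n (out n e) e none = 0 := by
  rw [val_none]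
  refine sum_eq_zero fun i _ => ?_
  unfold out gn
  split_ifs <;> simp_all

theorem out_eq (hl : 2 ≤ l) (ha : ∀ i, 0 < a i) {n : ℕ} {e e' : ℕ × ℕ} (h1 : e.1 < e.2)
    (h2 : e'.1 < e'.2 ∧ e'.2 < n) (h : val a b n (out n e) e' none = 0) : e' = e := by
  by_contra ne
  refine (pos (b := b) (n := n) hl ha (out_nn n e) (e := e') ?_).ne' h
  have : ¬(e'.1 = e.1 ∧ e'.2 = e.2) := fun h => ne (Prod.ext h.1 h.2)
  unfold out
  split_ifs <;> simp <;> omega

theorem ind_nn (g j : ℕ) : (0 : ℤ) ≤ if j = g then 0 else 1 := by split_ifs <;> simp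

theorem ind_pos (hl : 2 ≤ l) (ha : ∀ i, 0 < a i) {n : ℕ} {e : ℕ × ℕ} (h1 : e.1 < e.2) (g : ℕ) :
    0 < val a b n (fun j => if j = g then 0 else 1) e none :=
  pos hl ha (ind_nn g) (by split_ifs <;> simp; omega)

theorem analyse (hl : 2 ≤ l) (ha : ∀ i, 0 < a i) (hb : 0 < b) {n : ℕ} (e : Option (Fin l) → ℕ × ℕ)
    (o : Option (Fin l) → Option (Fin l)) (he : ∀ s, o s = none → (e s).1 < (e s).2 ∧ (e s).2 < n)
    (h : ∀ w, ∑ i, a i * val a b n w (e (some i)) (o (some i)) = b * val a b n w (e none) (o none)) :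
    (∑ i, a i = b ∧ ∀ s, vl a b n (e s) (o s) = vl a b n (e none) (o none)) ∨
      (o none = none ∧ ∀ v, v = (e none).1 ∨ v = (e none).2 →
        ∃ s, vl a b n (e s) (o s) = b * ph a b n v) := by
  have z : ∀ w, (∀ j, 0 ≤ w j) → val a b n w (e none) (o none) = 0 →
      ∀ i, val a b n w (e (some i)) (o (some i)) = 0 := by
    intro w hw h0 i
    have := h w
    rw [h0, mul_zero, sum_eq_zero_iff_of_nonneg fun i _ =>
      mul_nonneg (by positivity) (nonneg hw _ _)] at this
    simpa [(ha i).ne'] using this i (mem_univ _)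
  have sm : ∀ s j, o s = some j → vl a b n (e s) (o s) = b * ph a b n (gn n (e s) j) := by
    intro s j hj; simp [hj, vl, co]
  have hb' : (0 : ℤ) < b := by exact_mod_cast hb
  rcases h0 : o none with _ | j
  · have e1 : ∀ i, o (some i) = none → e (some i) = e none := fun i hi =>
      out_eq (b := b) hl ha (he _ h0).1 (he _ hi)
        (hi ▸ z _ (out_nn n (e none)) (by rw [h0]; exact out_val _ _) i)
    have hA : (0 : ℤ) < ∑ i, (a i : ℤ) :=
      sum_pos (fun i _ => by exact_mod_cast ha i) ⟨⟨0, by omega⟩, mem_univ _⟩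
    have sp : ∀ w, (∑ i with o (some i) = none, (a i : ℤ)) * val a b n w (e none) none +
        ∑ i with ¬o (some i) = none, a i * val a b n w (e (some i)) (o (some i)) =
          b * val a b n w (e none) none := by
      intro w
      have hw := h w
      rw [h0] at hw
      rw [← hw, ← sum_filter_add_sum_filter_not univ fun i => o (some i) = none, sum_mul]
      congr 1
      exact sum_congr rfl fun i hi => by rw [e1 i (mem_filter.1 hi).2, (mem_filter.1 hi).2]
    by_cases c : ∀ i, o (some i) = none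
    · refine Or.inl ⟨?_, fun s => ?_⟩
      · have := sp fun _ => 1
        simp only [c, filter_true, not_true, filter_false, sum_empty, add_zero, val_none,
          mul_one] at this
        exact_mod_cast mul_right_cancel₀ hA.ne' this
      · cases s with
        | none => rw [h0]
        | some i => rw [e1 i (c i), c i]
    · refine Or.inr ⟨rfl, fun v hv => ?_⟩
      obtain ⟨i0, hi0⟩ := not_forall.1 c
      have lt : ∑ i with o (some i) = none, (a i : ℤ) < b := by
        have h1 := sp fun _ => 1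
        have h2 : 0 < ∑ i with ¬o (some i) = none,
            (a i : ℤ) * val a b n (fun _ => 1) (e (some i)) (o (some i)) := by
          refine sum_pos' (fun i _ => mul_nonneg (by positivity) (nonneg (by simp) _ _))
            ⟨i0, by simpa using hi0, ?_⟩
          obtain ⟨j, hj⟩ := Option.ne_none_iff_exists'.1 hi0
          simpa [hj, val_some, hb] using ha i0
        simp only [val_none, mul_one] at h1
        nlinarith
      by_contra! hc
      have h1 := sp fun j => if j = v then 1 else 0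
      have h2 := pos (b := b) (n := n) hl ha (w := fun j => if j = v then 1 else 0)
        (fun j => by split_ifs <;> simp) (e := e none) (by rcases hv with rfl | rfl <;> simp)
      rw [sum_eq_zero (s := univ.filter fun i => ¬o (some i) = none)] at h1
      · nlinarith
      · intro i hi
        obtain ⟨j, hj⟩ := Option.ne_none_iff_exists'.1 (mem_filter.1 hi).2
        have : gn n (e (some i)) j ≠ v := fun h => hc (some i) (h ▸ sm _ _ hj)
        simp [hj, val_some, this]
  · have k : ∀ i, ∃ j', o (some i) = some j' ∧ gn n (e (some i)) j' = gn n (e none) j := by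
      intro i
      have := z _ (ind_nn (gn n (e none) j)) (by simp [h0, val_some]) i
      rcases hi : o (some i) with _ | j'
      · exact ((ind_pos hl ha (he _ hi).1 _).ne' (hi ▸ this)).elim
      · exact ⟨j', rfl, by simpa [hi, val_some, hb.ne'] using this⟩
    choose j' k1 k2 using k
    refine Or.inl ⟨?_, fun s => ?_⟩
    · have := h fun _ => 1
      simp only [k1, h0, val_some, mul_one, ← sum_mul] at this
      exact_mod_cast mul_right_cancel₀ hb'.ne' this
    · cases s with
      | none => rw [h0]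
      | some i => rw [sm _ _ (k1 i), k2, ← h0, sm _ _ h0]

theorem cover (hl : 2 ≤ l) (ha : ∀ i, 0 < a i) (hb : 0 < b) (n : ℕ) (r : ℤ) :
    ∃ v, ∀ (e : ℕ × ℕ) o, e.1 < e.2 → e.2 < n → (vl a b n e o : ℤ) = r → v = e.1 ∨ v = e.2 := by
  by_cases c : ∃ (e : ℕ × ℕ) (o : Option (Fin l)), e.1 < e.2 ∧ e.2 < n ∧ (vl a b n e o : ℤ) = r
  swap
  · exact ⟨0, fun e o h1 h2 h3 => (c ⟨e, o, h1, h2, h3⟩).elim⟩
  obtain ⟨e', o', g1, g2, rfl⟩ := c
  refine ⟨if o' = some ⟨1, by omega⟩ then e'.2 else e'.1, fun e o h1 h2 h3 => ?_⟩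
  have s := same a b hl hb (e := e) (e' := e') (o := o) (o' := o') (n := n) (by omega) (by omega)
    (by exact_mod_cast h3)
  rcases o with _ | j <;> rcases o' with _ | j'
  · rw [out_eq (b := b) hl ha h1 ⟨g1, g2⟩ ((s _).symm.trans (out_val _ _))]; simp
  · exact ((ind_pos hl ha h1 (gn n e' j')).ne' ((s _).trans (by simp [val_some]))).elim
  · exact ((ind_pos hl ha g1 (gn n e j)).ne' ((s _).symm.trans (by simp [val_some]))).elim
  · have : gn n e j = gn n e' j' := by
      simpa [val_some, hb.ne'] using s fun x => if x = gn n e' j' then 0 else 1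
    simp only [gn] at this
    simp only [Option.some.injEq, Fin.ext_iff]
    split_ifs at this ⊢ <;> first | omega | skip
    simp only [Nat.add_right_inj, Nat.pair_eq_pair] at this
    omega

variable (a b)

noncomputable def raw (n : ℕ) (E : List (ℕ × ℕ)) : List ℕ :=
  (List.range n).map (fun v => b * ph a b n v) ++
    E.flatMap fun e => (univ : Finset (Option (Fin l))).toList.map (vl a b n e)

noncomputable def al (n : ℕ) (E : List (ℕ × ℕ)) : List ℕ :=
  (List.range ((raw a b n E).sum + 1)).filter fun x => decide (x ∈ raw a b n E)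

noncomputable def red (y : ℕ × List (ℕ × ℕ) × ℕ) : Inst :=
  ((al a b y.1 y.2.1).map fun x => (false, toBits x),
    toBits ((al a b y.1 y.2.1).length - (y.1 - y.2.2)))

theorem pt_red : PT (red a b) := by
  have h1 : PT fun p : ℕ × ℕ => ph a b p.1 p.2 := pt_mom _ (by unfold cM cN; fun_prop) (by fun_prop)
  have h2 : PT fun p : (ℕ × List (ℕ × ℕ) × ℕ) × ℕ × ℕ =>
      (univ : Finset (Option (Fin l))).toList.map (vl a b p.1.1 p.2) :=
    pt_map _ fun o => pt_sum _ fun i => (PT.const _).mul
      (h1.comp (g := fun p : (ℕ × List (ℕ × ℕ) × ℕ) × ℕ × ℕ => (p.1.1, gn p.1.1 p.2 i))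
        (by unfold gn; split_ifs <;> fun_prop))
  have h3 : PT fun y : ℕ × List (ℕ × ℕ) × ℕ => raw a b y.1 y.2.1 :=
    PT.append (PT.map (by fun_prop) ((PT.const _).mul (h1.comp
      (g := fun p : (ℕ × List (ℕ × ℕ) × ℕ) × ℕ => (p.1.1, p.2)) (by fun_prop))))
      (PT.flatMap (by fun_prop) h2)
  have h4 : PT fun y : ℕ × List (ℕ × ℕ) × ℕ => al a b y.1 y.2.1 :=
    PT.filter (h3.sum.add (PT.const 1)).range (PT.decMem (h3.comp (PT.fst PT.id)) (PT.snd PT.id))
  exact PT.pair (PT.map h4 (PT.pair (PT.const _) (PT.snd PT.id).toBits))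
    (h4.length.sub (by fun_prop)).toBits

theorem bin_toBits (n : ℕ) : bin (toBits n) = n := ofDigits_toBits n

theorem mem_setA (y : ℕ × List (ℕ × ℕ) × ℕ) (x : ℤ) : x ∈ setA (red a b y) ↔
    (∃ v < y.1, ((b * ph a b y.1 v : ℕ) : ℤ) = x) ∨ ∃ e ∈ y.2.1, ∃ o, (vl a b y.1 e o : ℤ) = x := by
  have : ∀ m, m ∈ al a b y.1 y.2.1 ↔ m ∈ raw a b y.1 y.2.1 := fun m => by
    simp only [al, List.mem_filter, List.mem_range, decide_eq_true_eq, and_iff_right_iff_imp]
    exact fun h => Nat.lt_succ_of_le (List.single_le_sum (by simp) _ h)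
  simp only [setA, red, List.map_map, List.mem_toFinset, List.mem_map, Function.comp, bin_toBits,
    cond_false, this, raw, List.mem_append, List.mem_flatMap, List.mem_range, mem_toList, mem_univ]
  grind

theorem card_setA (y : ℕ × List (ℕ × ℕ) × ℕ) :
    (setA (red a b y)).card = (al a b y.1 y.2.1).length := by
  simp only [setA, red, List.map_map]
  rw [List.toFinset_card_of_nodup, List.length_map]
  exact (List.nodup_range.filter _).map fun x y h => by simpa [bin_toBits] using h

variable {a b}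

theorem ph_inj (hl : 2 ≤ l) (hb : 0 < b) {n u v : ℕ} (hu : u < n) (hv : v < n)
    (h : b * ph a b n u = b * ph a b n v) : u = v := by
  simpa [val_some, gn, hb.ne'] using same a b hl hb (e := (u, u)) (e' := (v, v)) (n := n)
    (o := some ⟨0, by omega⟩) (o' := some ⟨0, by omega⟩) ⟨hu, hu⟩ ⟨hv, hv⟩
    (by simpa [vl, co, gn] using h) fun x => if x = v then 0 else 1

theorem le_card (hl : 2 ≤ l) (hb : 0 < b) (y : ℕ × List (ℕ × ℕ) × ℕ) :
    y.1 ≤ (setA (red a b y)).card := by
  have := card_le_card_of_injOn (s := range y.1) (t := setA (red a b y))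
    (fun v => ((b * ph a b y.1 v : ℕ) : ℤ))
    (fun v hv => (mem_setA a b y _).2 (Or.inl ⟨v, by simpa using hv, rfl⟩))
    fun u hu v hv h => ph_inj (a := a) hl hb (by simpa using hu) (by simpa using hv)
      (Int.natCast_inj.1 h)
  simpa using this

theorem correct (hl : 2 ≤ l) (ha : ∀ i, 0 < a i) (hb : 0 < b) (y : ℕ × List (ℕ × ℕ) × ℕ)
    (hy : ISV y) : IS y ↔ LFS a b (red a b y) := by
  have hk : bin (red a b y).2 = (setA (red a b y)).card - (y.1 - y.2.2) := by
    rw [card_setA]; exact bin_toBits _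
  have hn := le_card (a := a) hl hb y
  have hm := mem_setA a b y
  unfold LFS
  rw [hk]
  obtain ⟨n, E, k⟩ := y
  obtain ⟨hk, hE⟩ := hy
  generalize setA _ = A at *
  simp only at *
  constructor
  · rintro ⟨I, i1, i2, i3⟩
    refine ⟨A \ (range n \ I).image fun v => ((b * ph a b n v : ℕ) : ℤ), sdiff_subset, ?_, ?_⟩
    · refine le_trans ?_ (le_card_sdiff _ _)
      have := card_image_le (s := range n \ I) (f := fun v => ((b * ph a b n v : ℕ) : ℤ))
      rw [card_sdiff_of_subset fun v hv => mem_range.2 (i1 v hv), card_range] at this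
      simp only at i2
      omega
    · intro z hz h
      have : ∀ s, ∃ (e : ℕ × ℕ) (o : Option (Fin l)), (e.1 < n ∧ e.2 < n) ∧ (o = none → e ∈ E) ∧
          (vl a b n e o : ℤ) = z s := by
        intro s
        rcases (hm _).1 (mem_sdiff.1 (hz s)).1 with ⟨v, h1, h2⟩ | ⟨e, h1, o, h2⟩
        · exact ⟨(v, v), some ⟨0, by omega⟩, ⟨h1, h1⟩, by simp, by simpa [vl, co, gn] using h2⟩
        · exact ⟨e, o, by have := hE e h1; omega, fun _ => h1, h2⟩
      choose e o e1 e2 e3 using this
      have r := rel a b (n := n) (by simp) (cf a b) (fun s => by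
        cases s with
        | none => simp [cf, cK]; positivity
        | some i => simpa [cf] using le_cK a b i) e o e1 (by simpa [e3] using h)
      rcases analyse hl ha hb e o (fun s hs => hE _ (e2 s hs)) (fun w => by
        have := r w
        simp only [Fintype.sum_option, cf] at this
        linarith) with ⟨g1, g2⟩ | ⟨g1, g2⟩
      · refine ⟨fun _ => 0, fun i j _ => by rw [← e3, ← e3, g2 i, g2 j], fun P => ?_⟩
        by_cases hP : 0 = P
        · simp [hP, Fintype.sum_option, cf, ← g1]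
        · simp [hP]
      · have : ∀ v < n, v = (e none).1 ∨ v = (e none).2 → v ∈ I := by
          intro v hv h
          obtain ⟨s, hs⟩ := g2 v h
          by_contra hc
          exact (mem_sdiff.1 (hz s)).2 (mem_image.2 ⟨v, by simp [hv, hc], by rw [← e3, hs]⟩)
        exact (i3 _ (e2 _ g1) ⟨this _ (e1 _).1 (by simp), this _ (e1 _).2 (by simp)⟩).elim
  · rintro ⟨S, s1, s2, s3⟩
    choose ρ hρ using cover hl ha hb n
    refine ⟨range n \ (A \ S).image ρ, fun v hv => mem_range.1 (mem_sdiff.1 hv).1, ?_, ?_⟩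
    · refine le_trans ?_ (le_card_sdiff _ _)
      have := card_image_le (s := A \ S) (f := ρ)
      rw [card_sdiff_of_subset s1] at this
      simp only [card_range]
      omega
    · rintro e he ⟨h1, h2⟩
      obtain ⟨g1, g2⟩ := hE e he
      obtain ⟨cls, c1, c2⟩ := s3 (fun o => vl a b n e o) (fun o => by
        by_contra hc
        have : ρ (vl a b n e o) ∈ (A \ S).image ρ :=
          mem_image_of_mem _ (mem_sdiff.2 ⟨(hm _).2 (Or.inr ⟨e, he, o, rfl⟩), hc⟩)
        rcases hρ _ e o g1 g2 rfl with h | h <;> rw [h] at this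
        · exact (mem_sdiff.1 h1).2 this
        · exact (mem_sdiff.1 h2).2 this) (by
          simp only [Fintype.sum_option, cf, vl_cast, val_some, val_none, mul_sum, neg_mul]
          rw [← sum_add_distrib]
          exact sum_eq_zero fun _ _ => by ring)
      have : univ.filter (fun i => cls i = cls none) = {none} := by
        ext o
        cases o with
        | none => simp
        | some j =>
          simp only [mem_filter, mem_univ, true_and, mem_singleton, reduceCtorEq, iff_false]
          intro h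
          have s := same a b hl hb (e := e) (e' := e) (o := some j) (o' := none) (n := n) (by omega)
            (by omega) (Int.natCast_inj.1 (c1 _ _ h))
          exact (ind_pos hl ha g1 (gn n e j)).ne' ((s _).symm.trans (by simp [val_some]))
      have := c2 (cls none)
      simp_all [cf]

end

theorem result (l : ℕ) (hl : 2 ≤ l) (a : Fin l → ℕ) (b : ℕ) (ha : ∀ i, 0 < a i) (hb : 0 < b) :
    ∃ p : Polynomial ℕ, ∀ L : List Bool → Prop, InNP L →
      ∃ f : List Bool → Inst, PolyTime id bits f ∧ ∀ x,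
        (∀ z ∈ setA (f x), z.natAbs ≤ p.eval (setA (f x)).card) ∧ (L x ↔ LFS a b (f x)) := by
  open Polynomial in
  let N : ℕ[X] := X + (X ^ 2 + C l) ^ 2
  open Polynomial in
  let p : ℕ[X] := C (l * cK a b * ((l + 1) * l)) * (N ^ ((l + 1) * l) *
    (C ((l + 1) * l * (cK a b * cK a b)) * N ^ ((l + 1) * l) + 1) ^ ((l + 1) * l))
  have hp : ∀ (n : ℕ) (e : ℕ × ℕ) o, e.1 < n → e.2 < n → vl a b n e o ≤ p.eval n := by
    intro n e o h1 h2
    have := sum_le_card_nsmul univ (fun i : Fin l => co a b o i * ph a b n (gn n e i)) _ fun i _ =>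
      Nat.mul_le_mul (co_le a b o i) (mom_le (gn_lt h1 h2 i) (Nat.succ_pos _))
    refine this.trans (le_of_eq ?_)
    simp [p, N, cN, cM, mul_assoc]
  have h : HardFor InNP (fun y => ∀ z ∈ setA y, z.natAbs ≤ p.eval (setA y).card) (LFS a b) := by
    refine hard_IS.red _ (pt_red a b) fun y hy => ⟨fun z hz => ?_, correct hl ha hb y hy⟩
    refine le_trans ?_ (ev_mono p (le_card hl hb y))
    rcases (mem_setA a b y z).1 hz with ⟨v, h1, rfl⟩ | ⟨e, h1, o, rfl⟩
    · rw [Int.natAbs_natCast]
      simpa [vl, co, gn] using hp y.1 (v, v) (some ⟨0, by omega⟩) h1 h1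
    · have := hy.2 e h1
      exact hp y.1 e o (by omega) this.2
  refine ⟨p, fun L hL => ?_⟩
  obtain ⟨f, hf, e⟩ := h L hL
  exact ⟨f, hf.polyTime_raw, e⟩

end Pool.Agent.Results.MP_f29e3e_lc.Strong
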